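import Pool.Agent.Helper87.HQ.St
import Pool.Agent.Helper13.HQ.M_C2
import Pool.Agent.Helper39.HQ.M_C3
import Pool.Agent.Helper38.HQ.M_C4
import Pool.Agent.Helper99.HQ.M_C5
import Pool.Agent.Helper11.HQ.M_C6
import Pool.Agent.Helper9.HQ.M_C7
import Pool.Agent.Helper25.HQ.M_C8
import Pool.Agent.Helper94.HQ.M_C9
import Pool.Agent.Helper57.HQ.M_C10

/-!
# Module CA of project HQ: all eigenvalues together
-/

set_option autoImplicit false

namespace Pool.Agent.Helper52.HQ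

open Set
open Pool.Agent.Helper87.HQ

theorem hCA : PB → CA := by
  intro hPB G α μ e hG hinf
  rcases lt_trichotomy μ 0 with h | h | h
  · have hκ : 0 < Real.sqrt (-μ) := Real.sqrt_pos.mpr (by linarith)
    have h2 : -Real.sqrt (-μ) ^ 2 = μ := by
      rw [Real.sq_sqrt (by linarith)]
      ring
    have h9 := Pool.Agent.Helper94.HQ.hC9 (Pool.Agent.Helper25.HQ.hC8 Pool.Agent.Helper9.HQ.hC7) G α
      (Real.sqrt (-μ)) e hG hκ
    rw [h2] at h9
    exact h9 hinf
  · subst h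
    exact Pool.Agent.Helper57.HQ.hC10 G α e hinf.nonempty
  · have hκ : 0 < Real.sqrt μ := Real.sqrt_pos.mpr h
    have h2 : Real.sqrt μ ^ 2 = μ := Real.sq_sqrt h.le
    have h5 := Pool.Agent.Helper99.HQ.hC5 Pool.Agent.Helper13.HQ.hC2 G α (Real.sqrt μ) e hκ
    rw [h2] at h5
    rcases h5 with h5 | h5
    · rw [h5] at hinf ⊢
      exact Pool.Agent.Helper11.HQ.hC6 hPB Pool.Agent.Helper39.HQ.hC3 Pool.Agent.Helper38.HQ.hC4 G α
        (Real.sqrt μ) e hκ hinf
    · rw [h5]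
      exact ⟨0, G.len e, G.len_pos e, Subset.rfl⟩

end Pool.Agent.Helper52.HQ
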